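import Pool.Agent.H85.TU.Targets2

/-!
# Prefix classes: the blow-up and the decoding are Borel
-/

set_option autoImplicit false

open Set

namespace Pool.Agent.H96.TU

open Pool.Agent.H85.TU

/-- the infimum of a measurably varying set of natural numbers is measurable -/
theorem meas_sInf {X : Type} [MeasurableSpace X] (A : X → Set ℕ)
    (hA : ∀ n, MeasurableSet {x | n ∈ A x}) : Measurable fun x => sInf (A x) := by
  refine measurable_to_countable' fun n => ?_
  have h1 : (fun x => sInf (A x)) ⁻¹' {n} =
      ({x | n ∈ A x} ∩ ⋂ j : ℕ, ⋂ _ : j < n, {x | j ∈ A x}ᶜ) ∪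
        {x | n = 0} ∩ ⋂ j : ℕ, {x | j ∈ A x}ᶜ := by
    ext x
    simp only [mem_preimage, mem_singleton_iff, mem_union, mem_inter_iff, mem_ofPred_eq, mem_iInter,
      mem_compl_iff]
    constructor
    · intro h
      by_cases hne : (A x).Nonempty
      · left
        refine ⟨h ▸ Nat.sInf_mem hne, fun j hj => ?_⟩
        exact Nat.notMem_of_lt_sInf (h ▸ hj)
      · right
        rw [not_nonempty_iff_eq_empty] at hne
        rw [hne, Nat.sInf_empty] at h
        refine ⟨h.symm, fun j hj => ?_⟩
        rw [hne] at hj
        exact hj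
    · rintro (⟨h, h'⟩ | ⟨h, h'⟩)
      · refine le_antisymm (Nat.sInf_le h) ?_
        by_contra hlt
        push Not at hlt
        exact h' _ hlt (Nat.sInf_mem ⟨n, h⟩)
      · have : A x = ∅ := by
          ext j
          exact ⟨fun hj => h' j hj, fun hj => hj.elim⟩
        rw [this, Nat.sInf_empty, h]
  rw [h1]
  refine MeasurableSet.union ?_ ?_
  · exact (hA n).inter (MeasurableSet.iInter fun j => MeasurableSet.iInter fun _ => (hA j).compl)
  · refine MeasurableSet.inter ?_ (MeasurableSet.iInter fun j => (hA j).compl)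
    exact MeasurableSet.const _

/-- the `n`-th element of a measurably varying set is measurable -/
theorem meas_nth {X : Type} [MeasurableSpace X] (p : X → ℕ → Prop)
    (hp : ∀ n, MeasurableSet {x | p x n}) (m : ℕ) : Measurable fun x => Nat.nth (p x) m := by
  induction m using Nat.strong_induction_on with
  | _ m ih =>
    have h1 : (fun x => Nat.nth (p x) m) =
        fun x => sInf {n | p x n ∧ ∀ k < m, Nat.nth (p x) k < n} := by
      funext x
      exact Nat.nth_eq_sInf (p x) m
    rw [h1]
    refine meas_sInf _ fun n => ?_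
    have h2 : {x | n ∈ {n | p x n ∧ ∀ k < m, Nat.nth (p x) k < n}} =
        {x | p x n} ∩ ⋂ k : ℕ, ⋂ _ : k < m, (fun x => Nat.nth (p x) k) ⁻¹' {j | j < n} := by
      ext x
      simp only [mem_ofPred_eq, mem_inter_iff, mem_iInter, mem_preimage]
    rw [h2]
    refine (hp n).inter (MeasurableSet.iInter fun k => MeasurableSet.iInter fun hk => ?_)
    exact (ih k hk) (MeasurableSet.of_discrete)

section

variable {C : Type} [MeasurableSpace C]

theorem meas_lb (i j : Fin 4) : Measurable fun s : LC C => lb s i j := by
  have h1 : Measurable fun s : LC C => s.2.2.1 := measurable_snd.snd.fst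
  have h2 : Measurable fun t : Str bar (bD C) (Fin 4) => t () := measurable_pi_apply ()
  have h3 : Measurable fun t : (Fin 2 → Fin 4) → C => t ![i, j] := measurable_pi_apply _
  exact h3.comp (h2.comp h1)

theorem meas_zl (u v : ℕ) : Measurable fun z : Str bar (bD (LC C)) ℕ => zl z u v := by
  have h2 : Measurable fun t : Str bar (bD (LC C)) ℕ => t () := measurable_pi_apply ()
  have h3 : Measurable fun t : (Fin 2 → ℕ) → LC C => t ![u, v] := measurable_pi_apply _
  exact h3.comp h2

theorem meas_S0 (u : ℕ) : MeasurableSet {z : Str bar (bD (LC C)) ℕ | S0 z u} := by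
  have h1 : Measurable fun z : Str bar (bD (LC C)) ℕ => (zl z u u).1 := (meas_zl u u).fst
  exact h1 (measurableSet_singleton false)

theorem meas_tp {n : ℕ} (v : Fin n → ℕ) : Measurable fun y : Str bar (bD C) ℕ => tp y v := by
  refine Measurable.prodMk ?_ measurable_const
  refine measurable_pi_lambda _ fun i => measurable_pi_lambda _ fun w => ?_
  have h2 : Measurable fun t : Str bar (bD C) ℕ => t i := measurable_pi_apply i
  have h3 : Measurable fun t : (Fin (bar i) → ℕ) → C => t (v ∘ w) := measurable_pi_apply _
  exact h3.comp h2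

theorem meas_dec : Measurable fun z : Str bar (bD (LC C)) ℕ => dec z := by
  refine measurable_pi_lambda _ fun i => measurable_pi_lambda _ fun w => ?_
  have h1 : Measurable fun z : Str bar (bD (LC C)) ℕ =>
      (z, (Nat.nth (S0 z) (w 0), Nat.nth (S0 z) (w 1))) :=
    measurable_id.prodMk ((meas_nth _ meas_S0 (w 0)).prodMk (meas_nth _ meas_S0 (w 1)))
  have h2 : Measurable fun p : Str bar (bD (LC C)) ℕ × (ℕ × ℕ) => lb (zl p.1 p.2.1 p.2.2) 0 2 := by
    refine measurable_from_prod_countable_left fun q => ?_
    exact (meas_lb 0 2).comp (meas_zl q.1 q.2)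
  exact h2.comp h1

theorem meas_blow (e : ℕ ≃ UU) : Measurable fun y : Str bar (bD C) ℕ => pull (blow y) e := by
  refine measurable_pi_lambda _ fun i => measurable_pi_lambda _ fun w => ?_
  exact measurable_const.prodMk (measurable_const.prodMk (meas_tp _))

end

theorem pf_BL4 : T_BL4 := by
  intro C _ _
  exact ⟨meas_dec, meas_blow⟩

end Pool.Agent.H96.TU
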