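import Pool.Agent.H85.TU.Targets2

/-!
# Prefix classes: the first two prefixes
-/

set_option autoImplicit false

open Set

namespace Pool.Agent.H96.TU

open Pool.Agent.H85.TU

theorem reidx_tp {ι : Type} {ar : ι → ℕ} {D : ι → Type} {m n : ℕ} (r : Fin m → Fin n)
    (x : Str ar D ℕ) (w : Fin n → ℕ) : reidx r (tp x w) = tp x (w ∘ r) := rfl

theorem pf_P12 : T_P12 := by
  intro C α β len
  have e2 : ∀ w : Fin 4 → ℕ, w ∘ ![0, 1] = ![w 0, w 1] := by
    intro w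
    ext i
    fin_cases i <;> rfl
  have e3 : ∀ w : Fin 4 → ℕ, w ∘ ![0, 1, 2] = ![w 0, w 1, w 2] := by
    intro w
    ext i
    fin_cases i <;> rfl
  have e4 : ∀ w : Fin 4 → ℕ, w ∘ ![0, 1, 3] = ![w 0, w 1, w 3] := by
    intro w
    ext i
    fin_cases i <;> rfl
  constructor
  · ext z
    have h1 : z ∈ Sent [true, true, true, false] (M1 α β len) ↔
        ∀ a b c : ℕ, ∃ d : ℕ, tp z ![a, b] ∈ Ga α ∧ tp z ![a, b, c] ∈ Rr ∧
          tp z ![a, b, d] ∈ Tas β len := by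
      show (∀ a b c : ℕ, ∃ d : ℕ,
        tp z (fun i : Fin 4 => [a, b, c, d].getD i 0) ∈ M1 α β len) ↔ _
      refine forall_congr' fun a => forall_congr' fun b => forall_congr' fun c =>
        exists_congr fun d => ?_
      show (reidx ![0, 1] (tp z _) ∈ Ga α ∧ reidx ![0, 1, 2] (tp z _) ∈ Rr ∧
        reidx ![0, 1, 3] (tp z _) ∈ Tas β len) ↔ _
      rw [reidx_tp, reidx_tp, reidx_tp, e2, e3, e4]
      exact Iff.rfl
    rw [h1]
    constructor
    · intro h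
      refine ⟨fun u v => ?_, fun u v w => ?_, fun u v => ?_⟩
      · obtain ⟨d, h2, _, _⟩ := h u v 0
        exact h2
      · obtain ⟨d, _, h2, _⟩ := h u v w
        exact h2
      · obtain ⟨d, _, _, h2⟩ := h u v 0
        exact ⟨d, h2⟩
    · rintro ⟨h2, h3, h4⟩ a b c
      obtain ⟨d, hd⟩ := h4 a b
      exact ⟨d, h2 a b, h3 a b c, hd⟩
  · ext z
    have h1 : z ∈ Sent [true, true, false, true] (M2 α β len) ↔
        ∀ a b : ℕ, ∃ d : ℕ, ∀ c : ℕ, tp z ![a, b] ∈ Ga α ∧ tp z ![a, b, c] ∈ Rr ∧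
          tp z ![a, b, d] ∈ Tas β len := by
      show (∀ a b : ℕ, ∃ d : ℕ, ∀ c : ℕ,
        tp z (fun i : Fin 4 => [a, b, d, c].getD i 0) ∈ M2 α β len) ↔ _
      refine forall_congr' fun a => forall_congr' fun b => exists_congr fun d =>
        forall_congr' fun c => ?_
      show (reidx ![0, 1] (tp z _) ∈ Ga α ∧ reidx ![0, 1, 3] (tp z _) ∈ Rr ∧
        reidx ![0, 1, 2] (tp z _) ∈ Tas β len) ↔ _
      rw [reidx_tp, reidx_tp, reidx_tp, e2, e3, e4]
      exact Iff.rfl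
    rw [h1]
    constructor
    · intro h
      refine ⟨fun u v => ?_, fun u v w => ?_, fun u v => ?_⟩
      · obtain ⟨d, h2⟩ := h u v
        exact (h2 0).1
      · obtain ⟨d, h2⟩ := h u v
        exact (h2 w).2.1
      · obtain ⟨d, h2⟩ := h u v
        exact ⟨d, (h2 0).2.2⟩
    · rintro ⟨h2, h3, h4⟩ a b
      obtain ⟨d, hd⟩ := h4 a b
      exact ⟨d, fun c => ⟨h2 a b, h3 a b c, hd⟩⟩

end Pool.Agent.H96.TU
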